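import Mathlib

/-!
Completary multifuncoids of the form `(P U)^n`: the definition and the poset they form.
-/

namespace Pool.Agent.Lib.MP_2da57a_co

open Set

universe u v

variable {n : Type u} {U : Type v}

/-- A set `f` of families `n → Set U` is a completary multifuncoid of the form `(P U)^n`:
for all `L₀ = L false` and `L₁ = L true`, the componentwise union lies in `f` iff some
choice `c : n → Bool` gives a mixed family `i ↦ (L (c i)) i` in `f`; and no family having an
empty component lies in `f`. -/
def IsCMF (f : Set (n → Set U)) : Prop :=
  (∀ L : Bool → n → Set U,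
      (fun i => L false i ∪ L true i) ∈ f ↔ ∃ c : n → Bool, (fun i => L (c i) i) ∈ f) ∧
  ∀ L : n → Set U, (∃ i, L i = ∅) → L ∉ f

/-- The poset of completary multifuncoids of the form `(P U)^n`, ordered by inclusion
(the order is the one inherited from `Set (n → Set U)`). -/
abbrev CMF (n : Type u) (U : Type v) : Type (max u v) := {f : Set (n → Set U) // IsCMF f}

theorem isCMF_empty : IsCMF (∅ : Set (n → Set U)) := by
  refine ⟨fun L => ?_, fun L _ => ?_⟩
  · simp
  · simp

/-- The least completary multifuncoid is the empty set. -/
instance instOrderBotCMF : OrderBot (CMF n U) where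
  bot := ⟨∅, isCMF_empty⟩
  bot_le f := by
    change (∅ : Set (n → Set U)) ⊆ f.1
    exact empty_subset _

theorem bot_val : ((⊥ : CMF n U) : Set (n → Set U)) = ∅ := rfl

end Pool.Agent.Lib.MP_2da57a_co
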