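import Mathlib
import Pool.Agent.Lib.MP_2da57a_co.Defs

/-!
The poset of completary multifuncoids of the form `(P U)^n` is atomic (equivalently
atomistic) exactly when `n` or `U` is finite.
-/

namespace Pool.Agent.Lib.MP_2da57a_co

open Set

universe u v

variable {n : Type u} {U : Type v}

theorem eq_bot_iff_val (f : CMF n U) : f = ⊥ ↔ f.1 = ∅ := by
  rw [Subtype.ext_iff, bot_val]

theorem IsCMF.mono {f : Set (n → Set U)} (hf : IsCMF f) {M N : n → Set U} (hM : M ∈ f)
    (h : ∀ i, M i ⊆ N i) : N ∈ f := by
  have := (hf.1 (fun b => if b then N else M)).2 ⟨fun _ => false, by simpa using hM⟩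
  have h2 : (fun i => (fun b : Bool => if b then N else M) false i ∪
      (fun b : Bool => if b then N else M) true i) = N := by
    funext i
    simpa using h i
  rwa [h2] at this

/-- Splitting a member along a family of sets. -/
theorem IsCMF.split {f : Set (n → Set U)} (hf : IsCMF f) {L : n → Set U} (hL : L ∈ f)
    (A : n → Set U) :
    ∃ M ∈ f, ∀ i, M i = L i ∩ A i ∨ M i = L i \ A i := by
  have h1 : (fun i => (fun b : Bool => if b then (fun i => L i ∩ A i) else fun i => L i \ A i)
      false i ∪ (fun b : Bool => if b then (fun i => L i ∩ A i) else fun i => L i \ A i)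
      true i) = L := by
    funext i
    simp
  obtain ⟨c, hc⟩ := (hf.1 (fun b => if b then (fun i => L i ∩ A i) else fun i => L i \ A i)).1
    (by rw [h1]; exact hL)
  refine ⟨_, hc, fun i => ?_⟩
  cases hci : c i
  · right; simp
  · left; simp

/-- The multifuncoid of a family of ultrafilters. -/
def ofUltra (x : n → Ultrafilter U) : Set (n → Set U) := {L | ∀ i, L i ∈ x i}

theorem isCMF_ofUltra (x : n → Ultrafilter U) : IsCMF (ofUltra x) := by
  classical
  refine ⟨fun L => ⟨fun h => ?_, fun ⟨c, hc⟩ i => ?_⟩, fun L ⟨i, hi⟩ hL => ?_⟩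
  · refine ⟨fun i => decide (L true i ∈ x i), fun i => ?_⟩
    have hi := h i
    by_cases h1 : L true i ∈ x i
    · simp [h1]
    · have : L false i ∈ x i := by
        rcases Ultrafilter.union_mem_iff.1 hi with h2 | h2
        · exact h2
        · exact absurd h2 h1
      simpa [h1] using this
  · have hi := hc i
    refine Filter.mem_of_superset hi ?_
    change L (c i) i ⊆ L false i ∪ L true i
    cases c i
    · exact subset_union_left
    · exact subset_union_right
  · have := hL i
    rw [hi] at this
    exact (x i).neBot.ne (Filter.empty_mem_iff_bot.1 this)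

theorem ofUltra_atom (x : n → Ultrafilter U) {g : Set (n → Set U)} (hg : IsCMF g)
    (hne : g.Nonempty) (hgx : g ⊆ ofUltra x) : ofUltra x ⊆ g := by
  obtain ⟨L, hL⟩ := hne
  intro M hM
  obtain ⟨N, hN, hNs⟩ := hg.split hL M
  refine hg.mono hN fun i => ?_
  rcases hNs i with h | h
  · rw [h]; exact inter_subset_right
  · exfalso
    have h1 : N i ∈ x i := hgx hN i
    have h2 : M i ∈ x i := hM i
    have h3 : N i ∩ M i ∈ x i := Filter.inter_mem h1 h2
    rw [h, sdiff_inter_self] at h3
    exact (x i).neBot.ne (Filter.empty_mem_iff_bot.1 h3)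

/-- If every member of every `f` lies in some `ofUltra x ⊆ f`... the key covering property. -/
def Covered (n : Type u) (U : Type v) : Prop :=
  ∀ f : Set (n → Set U), IsCMF f → ∀ L ∈ f, ∃ x : n → Ultrafilter U, L ∈ ofUltra x ∧ ofUltra x ⊆ f

theorem covered_of_finite_right [Finite U] : Covered n U := by
  classical
  intro f hf L hL
  have key : ∀ s : Set U, s.Finite → ∃ M ∈ f, (∀ i, M i ⊆ L i) ∧
      ∀ i, ∀ a ∈ s, a ∈ M i → M i = {a} := by
    intro s hs
    induction s, hs using Set.Finite.induction_on with
    | empty => exact ⟨L, hL, fun i => Subset.rfl, fun i a ha => absurd ha (notMem_empty a)⟩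
    | @insert a s _ _ ih =>
      obtain ⟨M, hM, hML, hMs⟩ := ih
      obtain ⟨N, hN, hNs⟩ := hf.split hM (fun _ => {a})
      have hNM : ∀ i, N i ⊆ M i := fun i => by
        rcases hNs i with h | h
        · rw [h]; exact inter_subset_left
        · rw [h]; exact sdiff_subset
      refine ⟨N, hN, fun i => (hNM i).trans (hML i), fun i b hb hbN => ?_⟩
      rcases hb with hb | hb
      · subst hb
        rcases hNs i with h | h
        · rw [h]
          rw [h] at hbN
          ext y
          constructor
          · exact fun hy => hy.2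
          · intro hy
            rw [mem_singleton_iff] at hy
            rw [hy]; exact hbN
        · rw [h] at hbN
          exact absurd (mem_singleton b) hbN.2
      · have h1 := hMs i b hb (hNM i hbN)
        apply Subset.antisymm
        · exact h1 ▸ hNM i
        · exact singleton_subset_iff.2 hbN
  obtain ⟨M, hM, hML, hMs⟩ := key univ finite_univ
  have hne : ∀ i, ∃ a, a ∈ M i := fun i => by
    rw [← Set.Nonempty, nonempty_iff_ne_empty]
    exact fun h => hf.2 M ⟨i, h⟩ hM
  choose p hp using hne
  refine ⟨fun i => pure (p i), fun i => ?_, fun N hN => ?_⟩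
  · exact hML i (hp i)
  · refine hf.mono hM fun i => ?_
    rw [hMs i (p i) (mem_univ _) (hp i)]
    exact singleton_subset_iff.2 (hN i)

/-- Given a grill `G` (upward closed, prime for unions, not containing `∅`) and `S ∈ G`, there
is an ultrafilter containing `S` all of whose members are in `G`. -/
theorem exists_ultrafilter_of_grill (G : Set (Set U)) (hmono : ∀ A B, A ∈ G → A ⊆ B → B ∈ G)
    (hprime : ∀ A B, A ∪ B ∈ G → A ∈ G ∨ B ∈ G) (hempty : ∅ ∉ G) (S : Set U) (hS : S ∈ G) :
    ∃ y : Ultrafilter U, S ∈ y ∧ ∀ B ∈ y, B ∈ G := by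
  let F : Filter U :=
    { sets := {T | S \ T ∉ G}
      univ_sets := by simpa using hempty
      sets_of_superset := by
        intro A B hA hAB hB
        exact hA (hmono _ _ hB (sdiff_subset_sdiff_right hAB))
      inter_sets := by
        intro A B hA hB hAB
        have : S \ (A ∩ B) = (S \ A) ∪ (S \ B) := sdiff_inter
        rw [this] at hAB
        rcases hprime _ _ hAB with h | h
        · exact hA h
        · exact hB h }
  have hF : ∀ T, T ∈ F ↔ S \ T ∉ G := fun T => Iff.rfl
  have hne : F.NeBot := by
    refine ⟨fun h => ?_⟩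
    have h1 : (∅ : Set U) ∈ F := by rw [h]; exact Filter.mem_bot
    rw [hF, sdiff_empty] at h1
    exact h1 hS
  refine ⟨@Ultrafilter.of _ F hne, ?_, fun B hB => ?_⟩
  · have h1 : S ∈ F := by rw [hF, sdiff_self]; exact hempty
    exact (@Ultrafilter.of_le _ F hne) h1
  · by_contra hBG
    have h1 : Bᶜ ∈ F := by
      rw [hF]
      intro h
      exact hBG (hmono _ _ h (by intro a ha; by_contra h2; exact ha.2 h2))
    have h2 : Bᶜ ∈ @Ultrafilter.of _ F hne := (@Ultrafilter.of_le _ F hne) h1
    exact Ultrafilter.compl_notMem_iff.2 hB h2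

theorem covered_of_finite_left [Finite n] : Covered n U := by
  classical
  intro f hf L hL
  have hLne : ∀ i, (L i).Nonempty := fun i => by
    rw [nonempty_iff_ne_empty]
    exact fun h => hf.2 L ⟨i, h⟩ hL
  have hx0 : Nonempty (n → Ultrafilter U) := by
    rcases isEmpty_or_nonempty n with h | h
    · exact ⟨fun i => isEmptyElim i⟩
    · obtain ⟨i⟩ := h
      obtain ⟨a, _⟩ := hLne i
      exact ⟨fun _ => pure a⟩
  have key : ∀ s : Set n, s.Finite → ∃ x : n → Ultrafilter U, (∀ i ∈ s, L i ∈ x i) ∧
      ∀ A : n → Set U, (∀ i ∈ s, A i ∈ x i) → (fun i => if i ∈ s then A i else L i) ∈ f := by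
    intro s hs
    induction s, hs using Set.Finite.induction_on with
    | empty =>
      obtain ⟨x⟩ := hx0
      exact ⟨x, fun i hi => absurd hi (notMem_empty i), fun A _ => by simpa using hL⟩
    | @insert j s hj _ ih =>
      obtain ⟨x, hx1, hx2⟩ := ih
      obtain ⟨y, hy1, hy2⟩ := exists_ultrafilter_of_grill
        {B : Set U | ∀ A : n → Set U, (∀ i ∈ s, A i ∈ x i) →
          (fun i => if i = j then B else if i ∈ s then A i else L i) ∈ f}
        (by
          intro B B' hB hBB' A hA
          refine hf.mono (hB A hA) fun i => ?_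
          by_cases h : i = j
          · simpa [h] using hBB'
          · simp [h])
        (by
          intro B₁ B₂ hB
          by_contra hcon
          rw [not_or] at hcon
          obtain ⟨h1, h2⟩ := hcon
          simp only [mem_ofPred_eq, not_forall] at h1 h2
          obtain ⟨A₁, hA₁, h1⟩ := h1
          obtain ⟨A₂, hA₂, h2⟩ := h2
          have h3 := hB (fun i => A₁ i ∩ A₂ i)
            (fun i hi => Filter.inter_mem (hA₁ i hi) (hA₂ i hi))
          have h4 := (hf.1 (fun b i => if i = j then (if b then B₂ else B₁) else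
            if i ∈ s then A₁ i ∩ A₂ i else L i)).1 (by
              convert h3 using 1
              funext i
              by_cases h : i = j
              · simp [h]
              · simp [h])
          obtain ⟨c, hc⟩ := h4
          cases hcj : c j
          · apply h1
            refine hf.mono hc fun i => ?_
            by_cases h : i = j
            · subst h; simp [hcj]
            · by_cases h' : i ∈ s
              · simp [h, h']
              · simp [h, h']
          · apply h2
            refine hf.mono hc fun i => ?_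
            by_cases h : i = j
            · subst h; simp [hcj]
            · by_cases h' : i ∈ s
              · simp [h, h']
              · simp [h, h'])
        (by
          intro h
          have h1 := h L (fun i hi => hx1 i hi)
          exact hf.2 _ ⟨j, by simp⟩ h1)
        (L j)
        (by
          intro A hA
          convert hx2 A hA using 1
          funext i
          by_cases h : i = j
          · subst h; simp [hj]
          · simp [h])
      refine ⟨Function.update x j y, fun i hi => ?_, fun A hA => ?_⟩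
      · by_cases h : i = j
        · subst h; simpa using hy1
        · rw [Function.update_of_ne h]
          exact hx1 i (hi.resolve_left h)
      · have hAj : A j ∈ y := by
          have := hA j (mem_insert j s)
          simpa using this
        have hAs : ∀ i ∈ s, A i ∈ x i := fun i hi => by
          have h : i ≠ j := fun h => hj (h ▸ hi)
          have := hA i (mem_insert_of_mem j hi)
          rwa [Function.update_of_ne h] at this
        have h1 := hy2 (A j) hAj A hAs
        convert h1 using 1
        funext i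
        by_cases h : i = j
        · subst h; simp
        · simp [h, mem_insert_iff]
  obtain ⟨x, hx1, hx2⟩ := key univ finite_univ
  refine ⟨x, fun i => hx1 i (mem_univ i), fun A hA => ?_⟩
  have := hx2 A (fun i _ => hA i)
  simpa using this

/-- The restriction of a multifuncoid to a family. -/
theorem isCMF_restrict {g : Set (n → Set U)} (hg : IsCMF g) (p : n → Set U) :
    IsCMF {M : n → Set U | (fun i => M i ∩ p i) ∈ g} := by
  refine ⟨fun L => ?_, fun L ⟨i, hi⟩ hL => ?_⟩
  · have := hg.1 (fun b i => L b i ∩ p i)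
    simp only [mem_ofPred_eq]
    rw [← this]
    have h2 : (fun i => (L false i ∪ L true i) ∩ p i) =
      fun i => L false i ∩ p i ∪ L true i ∩ p i := by
      funext i
      exact union_inter_distrib_right _ _ _
    rw [h2]
  · exact hg.2 _ ⟨i, by simp [hi]⟩ hL

/-- The counterexample attached to a family of finite sets of unbounded sizes. -/
def big (T : n → Finset U) : Set (n → Set U) :=
  {L | (∀ i, (L i ∩ T i).Nonempty) ∧ ∀ m : ℕ, ∃ i, m ≤ (L i ∩ T i).ncard}

theorem isCMF_big (T : n → Finset U) : IsCMF (big T) := by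
  classical
  have hfin : ∀ (A : Set U) (i : n), (A ∩ T i).Finite := fun A i =>
    (T i).finite_toSet.subset inter_subset_right
  refine ⟨fun L => ⟨fun h => ?_, fun ⟨c, hc⟩ => ?_⟩, fun L ⟨i, hi⟩ hL => ?_⟩
  · refine ⟨fun i => decide ((L false i ∩ T i).ncard ≤ (L true i ∩ T i).ncard), ?_⟩
    have hle : ∀ i, ((L false i ∪ L true i) ∩ T i).ncard ≤
        2 * (L (decide ((L false i ∩ T i).ncard ≤ (L true i ∩ T i).ncard)) i ∩ T i).ncard := by
      intro i
      have h1 : ((L false i ∪ L true i) ∩ T i).ncard ≤
          (L false i ∩ T i).ncard + (L true i ∩ T i).ncard := by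
        rw [union_inter_distrib_right]
        exact ncard_union_le _ _
      by_cases h2 : (L false i ∩ T i).ncard ≤ (L true i ∩ T i).ncard
      · simp only [h2, decide_true]
        omega
      · simp only [h2, decide_false]
        omega
    refine ⟨fun i => ?_, fun m => ?_⟩
    · have h1 : 0 < ((L false i ∪ L true i) ∩ T i).ncard := by
        rw [ncard_pos (hfin _ i)]
        exact h.1 i
      have h2 := hle i
      rw [← ncard_pos (hfin _ i)]
      exact Nat.pos_of_mul_pos_left (h1.trans_le h2)
    · obtain ⟨i, hi⟩ := h.2 (2 * m)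
      have h2 := hi.trans (hle i)
      exact ⟨i, Nat.le_of_mul_le_mul_left h2 two_pos⟩
  · have hsub : ∀ i, L (c i) i ∩ T i ⊆ (L false i ∪ L true i) ∩ T i := fun i => by
      cases c i
      · exact inter_subset_inter_left _ subset_union_left
      · exact inter_subset_inter_left _ subset_union_right
    refine ⟨fun i => (hc.1 i).mono (hsub i), fun m => ?_⟩
    obtain ⟨i, hi⟩ := hc.2 m
    exact ⟨i, hi.trans (ncard_le_ncard (hsub i) (hfin _ i))⟩
  · have := hL.1 i
    rw [hi, empty_inter] at this
    exact not_nonempty_empty this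

/-- There is no atom below `big T`. -/
theorem no_atom_big (T : n → Finset U) (g : Set (n → Set U)) (hg : IsCMF g)
    (hne : g.Nonempty) (hmin : ∀ h : Set (n → Set U), IsCMF h → h.Nonempty → h ⊆ g → g ⊆ h)
    (hgT : g ⊆ big T) : False := by
  classical
  -- `g` is closed under componentwise intersections
  have hinter : ∀ M ∈ g, ∀ p ∈ g, (fun i => M i ∩ p i) ∈ g := by
    intro M hM p hp
    have h1 := hmin {M : n → Set U | (fun i => M i ∩ p i) ∈ g} (isCMF_restrict hg p)
      ⟨p, by simpa using hp⟩ (fun N hN => hg.mono hN fun i => inter_subset_left)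
    exact h1 hM
  obtain ⟨p₀, hp₀⟩ := hne
  -- a member all of whose components are finite
  obtain ⟨p, hp, hpT⟩ : ∃ p ∈ g, ∀ i, p i ⊆ T i := by
    obtain ⟨q, hq, hqs⟩ := hg.split hp₀ (fun i => (T i : Set U))
    refine ⟨q, hq, fun i => ?_⟩
    rcases hqs i with h | h
    · rw [h]; exact inter_subset_right
    · exfalso
      have h1 := (hgT hq).1 i
      rw [h, sdiff_inter_self] at h1
      exact not_nonempty_empty h1
  -- minimal components
  have hminc : ∀ i, ∃ t : U, ∀ q ∈ g, t ∈ q i := by
    intro i
    have hex : ∃ k : ℕ, ∃ q ∈ g, q i ⊆ T i ∧ (q i).ncard = k := ⟨_, p, hp, hpT i, rfl⟩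
    obtain ⟨q, hq, hqT, hqk⟩ := Nat.find_spec hex
    have hqne : (q i).Nonempty := by
      rw [nonempty_iff_ne_empty]
      exact fun h => hg.2 q ⟨i, h⟩ hq
    obtain ⟨t, ht⟩ := hqne
    refine ⟨t, fun r hr => ?_⟩
    have h1 := hinter q hq r hr
    have hqfin : (q i).Finite := (T i).finite_toSet.subset hqT
    have h2 : Nat.find hex ≤ (q i ∩ r i).ncard :=
      Nat.find_min' hex ⟨_, h1, inter_subset_left.trans hqT, rfl⟩
    have h3 : q i ∩ r i = q i :=
      eq_of_subset_of_ncard_le inter_subset_left (by rw [hqk]; exact h2) hqfin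
    have h4 : t ∈ q i ∩ r i := by rw [h3]; exact ht
    exact h4.2
  choose t ht using hminc
  obtain ⟨q, hq, hqs⟩ := hg.split hp (fun i => {t i})
  have hq1 : ∀ i, q i ⊆ {t i} := fun i => by
    rcases hqs i with h | h
    · rw [h]; exact inter_subset_right
    · exfalso
      have h1 := ht i q hq
      rw [h] at h1
      exact h1.2 (mem_singleton _)
  obtain ⟨i, hi⟩ := (hgT hq).2 2
  have h1 : (q i ∩ T i).ncard ≤ ({t i} : Set U).ncard :=
    ncard_le_ncard (inter_subset_left.trans (hq1 i)) (finite_singleton _)
  rw [ncard_singleton] at h1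
  omega

theorem exists_big [Infinite n] [Infinite U] :
    ∃ T : n → Finset U, (big T).Nonempty := by
  classical
  obtain ⟨r, hr⟩ : ∃ r : n → ℕ, Function.Surjective r :=
    ⟨_, Function.invFun_surjective (Infinite.natEmbedding n).injective⟩
  let u := Infinite.natEmbedding U
  refine ⟨fun i => (Finset.range (r i + 1)).map u, fun _ => univ, fun i => ?_, fun m => ?_⟩
  · rw [univ_inter]
    exact ⟨u 0, by simp⟩
  · obtain ⟨i, hi⟩ := hr m
    refine ⟨i, ?_⟩
    rw [univ_inter, ncard_coe_finset, Finset.card_map, Finset.card_range, hi]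
    exact Nat.le_succ m

theorem isAtom_iff_val (g : CMF n U) : IsAtom g ↔ g.1.Nonempty ∧
    ∀ h : Set (n → Set U), IsCMF h → h.Nonempty → h ⊆ g.1 → g.1 ⊆ h := by
  constructor
  · intro hg
    refine ⟨nonempty_iff_ne_empty.2 fun h => hg.1 ((eq_bot_iff_val g).2 h), fun h hh hne hle => ?_⟩
    have h1 := (IsAtom.le_iff hg (x := ⟨h, hh⟩)).1 hle
    rcases h1 with h1 | h1
    · rw [eq_bot_iff_val] at h1
      exact absurd h1 (nonempty_iff_ne_empty.1 hne)
    · rw [← h1]
  · intro ⟨hne, hmin⟩
    refine ⟨fun h => nonempty_iff_ne_empty.1 hne ((eq_bot_iff_val g).1 h), fun h hlt => ?_⟩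
    rw [eq_bot_iff_val]
    by_contra hcon
    exact not_le_of_gt hlt (hmin h.1 h.2 (nonempty_iff_ne_empty.2 hcon) hlt.le)

theorem isAtom_ofUltra (x : n → Ultrafilter U) :
    IsAtom (⟨ofUltra x, isCMF_ofUltra x⟩ : CMF n U) := by
  rw [isAtom_iff_val]
  refine ⟨⟨fun _ => univ, fun i => Filter.univ_mem⟩, fun h hh hne hle => ofUltra_atom x hh hne hle⟩

theorem covered_of_finite (h : Finite n ∨ Finite U) : Covered n U := by
  rcases h with h | h
  · exact covered_of_finite_left
  · exact covered_of_finite_right

theorem not_below_of_infinite [Infinite n] [Infinite U] :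
    ∃ f : CMF n U, f ≠ ⊥ ∧ ∀ a : CMF n U, IsAtom a → ¬ a ≤ f := by
  obtain ⟨T, hT⟩ := exists_big (n := n) (U := U)
  refine ⟨⟨big T, isCMF_big T⟩, fun h => ?_, fun a ha hle => ?_⟩
  · rw [eq_bot_iff_val] at h
    exact nonempty_iff_ne_empty.1 hT h
  · rw [isAtom_iff_val] at ha
    exact no_atom_big T a.1 a.2 ha.1 ha.2 hle

theorem atomic_iff : (∀ f : CMF n U, f ≠ ⊥ → ∃ a : CMF n U, IsAtom a ∧ a ≤ f) ↔
    (Finite n ∨ Finite U) := by
  constructor
  · intro h
    by_contra hcon
    rw [not_or, not_finite_iff_infinite, not_finite_iff_infinite] at hcon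
    obtain ⟨h1, h2⟩ := hcon
    obtain ⟨f, hf, hf2⟩ := not_below_of_infinite (n := n) (U := U)
    obtain ⟨a, ha, haf⟩ := h f hf
    exact hf2 a ha haf
  · intro h f hf
    have hne : f.1.Nonempty := nonempty_iff_ne_empty.2 fun h => hf ((eq_bot_iff_val f).2 h)
    obtain ⟨L, hL⟩ := hne
    obtain ⟨x, _, hx⟩ := covered_of_finite h f.1 f.2 L hL
    exact ⟨⟨ofUltra x, isCMF_ofUltra x⟩, isAtom_ofUltra x, hx⟩

theorem atomistic_iff : (∀ f : CMF n U, IsLUB {a : CMF n U | IsAtom a ∧ a ≤ f} f) ↔
    (Finite n ∨ Finite U) := by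
  constructor
  · intro h
    by_contra hcon
    rw [not_or, not_finite_iff_infinite, not_finite_iff_infinite] at hcon
    obtain ⟨h1, h2⟩ := hcon
    obtain ⟨f, hf, hf2⟩ := not_below_of_infinite (n := n) (U := U)
    have h3 : f ≤ ⊥ := (h f).2 (fun a ha => absurd ha.2 (hf2 a ha.1))
    exact hf (le_bot_iff.1 h3)
  · intro h f
    refine ⟨fun a ha => ha.2, fun b hb L hL => ?_⟩
    obtain ⟨x, hLx, hx⟩ := covered_of_finite h f.1 f.2 L hL
    exact hb (⟨isAtom_ofUltra x, hx⟩ :
      (⟨ofUltra x, isCMF_ofUltra x⟩ : CMF n U) ∈ {a : CMF n U | IsAtom a ∧ a ≤ f}) hLx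

end Pool.Agent.Lib.MP_2da57a_co
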